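import Pool.Agent.VMX.StmtsC

/-! Squad VMX (MP_e54c4c_gt), row FGE (helper42): existence of almost periodic simplices with a
fixed vertex and an invariant opposite face. -/

set_option autoImplicit false

open Matrix Filter Topology

noncomputable section

namespace Pool.Agent.VMX.H42

open Pool.Agent.PFS Pool.Agent.PFJ Pool.Agent.NBT

theorem fge (tha : ThaStmt) (mcv : McvStmt) (lgf : LgfStmt) (xpl : KT3.XplStmt)
    (zlk : KT3.ZlkStmt) : FgeStmt := by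
  intro n k C Γ hK hw a ha ε S hε
  have hCC : CC C Γ := hK.toCC
  have hC : PCone C := hCC.toPCone
  obtain ⟨c, F, hSL, hF⟩ := tha n C Γ hCC (k + 1) hK.three hK.maxc hw 0
  have hMC : KT3.MC C Γ F := mcv n k C Γ c F hSL hF
  have hk0 : (0 : ℝ) < (k : ℝ) + 1 := by positivity
  set ε' : ℝ := min ε (1 / (2 * ((k : ℝ) + 1))) with hε'
  have hε'0 : 0 < ε' := lt_min hε (by positivity)
  have hε'1 : ε' ≤ ε := min_le_left _ _
  have hε'2 : ((k : ℝ) + 1) * ε' ≤ 1 / 2 := by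
    have h1 : ε' ≤ 1 / (2 * ((k : ℝ) + 1)) := min_le_right _ _
    calc ((k : ℝ) + 1) * ε' ≤ ((k : ℝ) + 1) * (1 / (2 * ((k : ℝ) + 1))) :=
          mul_le_mul_of_nonneg_left h1 hk0.le
      _ = 1 / 2 := by field_simp
  obtain ⟨w, z, g, s, σ, lam, hσ, hRG⟩ := xpl n k C Γ hK F hMC a ha ε' S hε'0
  obtain ⟨w', z', L, g', hLG⟩ := zlk n k C Γ hK F hMC a ε' σ w z g s lam hRG
  have hFG := lgf n k C Γ hCC F hMC a ε' σ w' z' L g' s lam hε'0 hε'2 hLG
  refine ⟨w', z', g', s, σ, lam, hσ, hFG.pes, hFG.gm, hFG.s0, hFG.l1, hFG.l2, hFG.inv, hFG.e0,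
    hFG.ei, fun i hi => ?_⟩
  obtain ⟨h1, h2, h3⟩ := hFG.nr i hi
  have hcl : (ε - ε') • fS w' ({0}ᶜ : Finset (Fin (k + 1))) ∈ closure C :=
    hC.cl_smul (fS_cl hC (fun i => hFG.pes.1.cl i) _) (sub_nonneg.2 hε'1)
  refine ⟨h1, ?_, ?_⟩
  · have := hC.cl_add hcl h2
    rw [show ε • fS w' ({0}ᶜ : Finset (Fin (k + 1))) - (z' i - w' i)
      = (ε - ε') • fS w' ({0}ᶜ : Finset (Fin (k + 1)))
        + (ε' • fS w' ({0}ᶜ : Finset (Fin (k + 1))) - (z' i - w' i)) by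
      rw [sub_smul]; abel]
    exact this
  · have := hC.cl_add hcl h3
    rw [show ε • fS w' ({0}ᶜ : Finset (Fin (k + 1))) + (z' i - w' i)
      = (ε - ε') • fS w' ({0}ᶜ : Finset (Fin (k + 1)))
        + (ε' • fS w' ({0}ᶜ : Finset (Fin (k + 1))) + (z' i - w' i)) by
      rw [sub_smul]; abel]
    exact this

end Pool.Agent.VMX.H42
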