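import Pool.Agent.VMX.StmtsB

/-! Squad VMX (MP_e54c4c_gt), row OSO (helper42): the set `OS` is open in the set of reachable
points; the slices on it. -/

set_option autoImplicit false

open Matrix Filter Topology

noncomputable section

namespace Pool.Agent.VMX.H42

open Pool.Agent.PFS Pool.Agent.PFJ Pool.Agent.NBT

variable {n K : ℕ}

theorem fam_ne {C : Set (V n)} {Γ Γ₀ : Subgroup (GL (Fin n) ℝ)} {F : (Fin K → V n) → Prop}
    (hF : FAM C Γ Γ₀ F) (hCC : CC C Γ) {w : Fin K → V n} (hw : F w) (i : Fin K) : w i ≠ 0 :=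
  hCC.hul.lamNe _ ((hF.pes w hw).2 i)

theorem oso (aln : AlnStmt) (sqr : SqrStmt) (sqn : SqnStmt) : OsoStmt := by
  intro n C Γ Γ₀ K p J c F hSL j r z h hjp hjJ hB
  have hCC : CC C Γ := hSL.cc
  have hC : PCone C := hCC.toPCone
  have hFAM : FAM C Γ Γ₀ F := hSL.toFAM
  have hFz : F z := hB.fz
  have hcl : ∀ i, z i ∈ closure C := fun i => (hFAM.pes z hFz).1.cl i
  have hRF : ∀ x, Rc C F p J z x → F (Function.update z p x) := fun x hx =>
    ((aln n C Γ Γ₀ K p J c F hSL z hFz x).1 hx).1
  have hxne : ∀ x, Rc C F p J z x → x ≠ 0 := fun x hx => by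
    have := fam_ne hFAM hCC (hRF x hx) p
    rwa [Function.update_self] at this
  have hqne : ∀ (l : Fin r) (x q : V n), Sq C F p J j z (h l) x q → q ≠ 0 := fun l x q hq => by
    have := fam_ne hFAM hCC hq.1.1 p
    rwa [Function.update_self] at this
  refine ⟨?_, ?_, ?_⟩
  · -- (1)
    intro x q hx hq hli
    have hzj : z j ∈ Es C F p j (Function.update z p x) := by
      refine Submodule.subset_span (Or.inl ?_)
      rw [Set.mem_singleton_iff, Function.update_of_ne hjp]
    have hxm : x ∈ Es C F p j (Function.update z p x) := by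
      refine Submodule.subset_span (Or.inr ?_)
      refine ⟨?_, 1, one_pos, ?_⟩
      · rw [Function.update_idem]
        exact hRF x hx
      · rw [Function.update_self, Function.update_of_ne hjp, one_smul, add_sub_cancel_left]
        exact hcl j
    have hql : ∀ l, q l ∈ Es C F p j (Function.update z p x) := fun l =>
      Submodule.subset_span (Or.inr (hq l).1)
    have hle : Submodule.span ℝ
        (Set.range (Fin.cons x (Fin.cons (z j) q) : Fin (r + 2) → V n)) ≤
        Es C F p j (Function.update z p x) := by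
      rw [Submodule.span_le]
      rintro _ ⟨i, rfl⟩
      refine Fin.cases ?_ (fun i => Fin.cases ?_ (fun l => ?_) i) i
      · exact hxm
      · exact hzj
      · exact hql l
    have hfr : Module.finrank ℝ (Submodule.span ℝ
        (Set.range (Fin.cons x (Fin.cons (z j) q) : Fin (r + 2) → V n))) = r + 2 := by
      rw [finrank_span_eq_card hli, Fintype.card_fin]
    have hmx := hB.mx _ (hRF x hx)
    have heq := Submodule.eq_of_le_of_finrank_le hle (hmx.trans hfr.ge)
    refine ⟨heq.symm, ?_⟩
    rw [← heq]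
    exact hfr
  · -- (2)
    rintro x x0 ⟨hx0, q0, hq0, hli0⟩ hx hlim
    -- normalised transports at `x k`
    have hnorm : ∀ (y : V n), Rc C F p J z y → ∀ l, ∃ q, Sq C F p J j z (h l) y q ∧
        ‖q‖ = ‖y‖ := by
      intro y hy l
      obtain ⟨⟨q, hq⟩, -, hsc⟩ := sqr n C Γ Γ₀ K p J c F hSL z hFz j hjp hjJ (h l) (hB.tm l) y hy
      have hqn : 0 < ‖q‖ := norm_pos_iff.2 (hqne l y q hq)
      have hyn : 0 < ‖y‖ := norm_pos_iff.2 (hxne y hy)
      refine ⟨(‖y‖ / ‖q‖) • q, hsc q _ (div_pos hyn hqn) hq, ?_⟩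
      rw [norm_smul, Real.norm_of_nonneg (div_pos hyn hqn).le, div_mul_cancel₀ _ hqn.ne']
    choose q hq hqn using fun k => hnorm (x k) (hx k)
    -- normalised transports at `x0`
    have hyn : 0 < ‖x0‖ := norm_pos_iff.2 (hxne x0 hx0)
    have hqn0 : ∀ l, 0 < ‖q0 l‖ := fun l => norm_pos_iff.2 (hqne l x0 _ (hq0 l))
    set a : Fin r → ℝ := fun l => ‖x0‖ / ‖q0 l‖ with ha
    have hapos : ∀ l, 0 < a l := fun l => div_pos hyn (hqn0 l)
    have hsq' : ∀ l, Sq C F p J j z (h l) x0 (a l • q0 l) := fun l =>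
      (sqr n C Γ Γ₀ K p J c F hSL z hFz j hjp hjJ (h l) (hB.tm l) x0 hx0).2.2 _ _ (hapos l)
        (hq0 l)
    have hn' : ∀ l, ‖a l • q0 l‖ = ‖x0‖ := fun l => by
      rw [norm_smul, Real.norm_of_nonneg (hapos l).le, ha, div_mul_cancel₀ _ (hqn0 l).ne']
    have hqlim : ∀ l, Tendsto (fun k => q k l) atTop (𝓝 (a l • q0 l)) := fun l =>
      sqn n C Γ Γ₀ K p J c F hSL z hFz j hjp hjJ (h l) (hB.tm l) x (fun k => q k l) x0
        (a l • q0 l) hx hx0 (fun k => hq k l) (hsq' l) hlim (fun k => hqn k l) (hn' l)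
    have hli : LinearIndependent ℝ
        (Fin.cons x0 (Fin.cons (z j) (fun l => a l • q0 l)) : Fin (r + 2) → V n) := by
      have hu := hli0.units_smul (w := (Fin.cons 1 (Fin.cons 1
        (fun l => Units.mk0 (a l) (hapos l).ne')) : Fin (r + 2) → ℝˣ))
      refine (Eq.mp ?_ hu)
      congr 1
      funext i
      refine Fin.cases ?_ (fun i => Fin.cases ?_ (fun l => ?_) i) i
      · simp
      · rw [Pi.smul_apply']
        simp only [Fin.cons_succ, Fin.cons_zero, one_smul]
      · rw [Pi.smul_apply']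
        simp only [Fin.cons_succ]
        rfl
    have hT : Tendsto (fun k => (Fin.cons (x k) (Fin.cons (z j) (q k)) : Fin (r + 2) → V n)) atTop
        (𝓝 (Fin.cons x0 (Fin.cons (z j) (fun l => a l • q0 l)))) := by
      rw [tendsto_pi_nhds]
      intro i
      refine Fin.cases ?_ (fun i => Fin.cases ?_ (fun l => ?_) i) i
      · exact hlim
      · exact tendsto_const_nhds
      · exact hqlim l
    have hev := hT.eventually (isOpen_setOf_linearIndependent.mem_nhds hli)
    filter_upwards [hev] with k hk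
    exact ⟨hx k, q k, hq k, hk⟩
  · -- (3)
    have hbase : ∀ w : Fin K → V n, Rc C F p J w (w p) := fun w => by
      have := Rc.base (C := C) (F := F) (p := p) (J := J) (z := w) 1 one_pos
      rwa [one_smul] at this
    refine ⟨hbase z, h, fun l => ⟨?_, ?_⟩, hB.li⟩
    · rw [Function.update_eq_self]
      exact hB.tm l
    · have := hbase (Function.update z p (h l))
      rwa [Function.update_self] at this

end Pool.Agent.VMX.H42
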