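import Pool.Agent.VMX.StmtsA

/-! Squad VMX (MP_e54c4c_gt), row ZFE (helper42): zooms inside a family. -/

set_option autoImplicit false

open Matrix Filter Topology

noncomputable section

namespace Pool.Agent.VMX.H42

open Pool.Agent.PFS Pool.Agent.PFJ Pool.Agent.NBT

theorem zfe (zpx : ZpxStmt) (zpt : ZptStmt) : ZfeStmt := by
  intro n C Γ Γ₀ hCC K F hF z hz I hI hIc θ hθ
  have hC : PCone C := hCC.toPCone
  have hpes : IsPES C Γ z := hF.pes z hz
  have hcl : ∀ i, z i ∈ closure C := fun i => hpes.1.cl i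
  set u : V n := fS z I with hu
  set R : V n := fS z Iᶜ with hR
  have huR : u + R ∈ C := by
    rw [hu, hR, fS_add_compl]
    exact hpes.1.sum_mem
  set x : ℕ → Fin K → V n := fun k i => (if i ∈ I then Real.exp (θ k) else 1) • z i with hx
  have hrpos : ∀ k i, 0 < (if i ∈ I then Real.exp (θ k) else 1) := by
    intro k i
    split_ifs
    · exact Real.exp_pos _
    · exact one_pos
  have hFx : ∀ k, F (x k) := fun k => hF.scl z hz _ (hrpos k)
  have hsum : ∀ k, ∑ i, x k i = Real.exp (θ k) • u + R := by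
    intro k
    rw [← fS_add_compl (x k) I]
    congr 1
    · rw [hu]
      unfold fS
      rw [Finset.smul_sum]
      refine Finset.sum_congr rfl fun i hi => ?_
      simp only [hx, if_pos hi]
    · rw [hR]
      unfold fS
      refine Finset.sum_congr rfl fun i hi => ?_
      have hni : i ∉ I := Finset.mem_compl.1 hi
      simp only [hx, if_neg hni, one_smul]
  obtain ⟨φ, g, s, p, hφ, hg, hs, hp, hlim⟩ := hF.cpt x hFx
  simp only [hsum] at hlim
  obtain ⟨φ', T, L, hφ', hZ, hTL⟩ := zpx n C Γ hCC u R (fS_cl hC hcl I) (fS_cl hC hcl Iᶜ) huR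
    (fun k => θ (φ k)) g s p (hθ.comp hφ.tendsto_atTop) (fun k => hF.sub (hg k)) hs hp hlim
  have hzt := zpt n C Γ hCC K z hpes I hI hIc (fun k => θ (φ (φ' k))) (fun k => g (φ' k))
    (fun k => s (φ' k)) T L hZ
  refine ⟨fun k => φ (φ' k), fun k => g (φ' k), fun k => s (φ' k), T, L, hφ.comp hφ',
    fun k => hg _, hZ, ?_⟩
  refine hF.cld (fun k i => s (φ' k) • act (g (φ' k)) (x (φ (φ' k)) i)) _ (fun k => ?_)
    (fun i => hzt.2.1 i) ?_
  · exact hF.scl _ (hF.inv _ (hFx _) _ (hg _)) (fun _ => s (φ' k)) (fun _ => hs _)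
  · rw [← fS_add_compl _ I, hzt.2.2.1, hzt.2.2.2.1]
    exact hZ.sum

end Pool.Agent.VMX.H42
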